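import Pool.Agent.H24.KTH.Top

/-!
# KTH, row HC: the heavy cap lemma
-/

set_option autoImplicit false

namespace Pool.Agent.H24.KTH

open Finset Real
open Pool.Agent.H49.Ent Pool.Agent.H32.Dense

namespace HC44

variable {d : ℕ} {Ω : Type} [Fintype Ω] {β : Type}

open Classical in
/-- The mass of the `ω` with side variable `b` and `D k ω` next to `x`. -/
noncomputable def gg (p : Ω → ℝ) (B : Ω → β) (D : ℕ → Ω → Fin d → ℤ) (b : β) (k : ℕ)
    (x : Fin d → ℤ) : ℝ :=
  ∑ ω, if B ω = b ∧ ∀ c, |D k ω c - x c| ≤ 1 then p ω else 0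

lemma gg_nonneg {p : Ω → ℝ} (hp : ∀ ω, 0 ≤ p ω) (B : Ω → β) (D : ℕ → Ω → Fin d → ℤ) (b : β)
    (k : ℕ) (x : Fin d → ℤ) : 0 ≤ gg p B D b k x := by
  classical
  unfold gg
  exact Finset.sum_nonneg fun ω _ => by split_ifs; exacts [hp ω, le_rfl]

lemma law_le_gg {p : Ω → ℝ} (hp : ∀ ω, 0 ≤ p ω) {B : Ω → β} {D : ℕ → Ω → Fin d → ℤ} {S : Type}
    {Y : Ω → S} {ω₀ : Ω} {k : ℕ} {x : Fin d → ℤ}
    (h : ∀ ω, Y ω = Y ω₀ → B ω = B ω₀ ∧ ∀ c, |D k ω c - x c| ≤ 1) :
    law p Y (Y ω₀) ≤ gg p B D (B ω₀) k x := by
  classical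
  unfold law gg
  refine Finset.sum_le_sum fun ω _ => ?_
  by_cases h1 : Y ω = Y ω₀
  · rw [if_pos h1, if_pos (h ω h1)]
  · rw [if_neg h1]
    split_ifs
    exacts [hp ω, le_rfl]

lemma sum_gg_le {p : Ω → ℝ} (hp : ∀ ω, 0 ≤ p ω) (B : Ω → β) (D : ℕ → Ω → Fin d → ℤ) (b : β)
    (k : ℕ) (F : Finset (Fin d → ℤ)) : ∑ x ∈ F, gg p B D b k x ≤ 3 ^ d * law p B b := by
  classical
  unfold gg law
  rw [Finset.sum_comm, Finset.mul_sum]
  refine Finset.sum_le_sum fun ω _ => ?_
  by_cases h : B ω = b
  · simp only [h, true_and, if_true]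
    rw [← Finset.sum_filter, Finset.sum_const, nsmul_eq_mul]
    refine mul_le_mul_of_nonneg_right ?_ (hp ω)
    have h2 : F.filter (fun x => ∀ c, |D k ω c - x c| ≤ 1) ⊆
        Fintype.piFinset fun c => Finset.Icc (D k ω c - 1) (D k ω c + 1) := by
      intro x hx
      rw [Fintype.mem_piFinset]
      intro c
      have h3 := abs_le.mp ((Finset.mem_filter.mp hx).2 c)
      rw [Finset.mem_Icc]
      constructor <;> linarith [h3.1, h3.2]
    have h3 := Finset.card_le_card h2
    rw [Fintype.card_piFinset] at h3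
    have h4 : ∀ c : Fin d, (Finset.Icc (D k ω c - 1) (D k ω c + 1)).card = 3 := by
      intro c
      rw [Int.card_Icc]
      omega
    simp only [h4, Finset.prod_const, Finset.card_univ, Fintype.card_fin] at h3
    exact_mod_cast h3
  · simp [h]

lemma min_exp {a b : ℝ} (ha : 0 ≤ a) (hb : 0 < b) : min 1 (Real.exp (a - b)) ≤ (a + 1) / b := by
  by_cases h : b ≤ a + 1
  · exact (min_le_left _ _).trans ((one_le_div hb).mpr h)
  · push Not at h
    refine (min_le_right _ _).trans ?_
    have ht : 1 < b - a := by linarith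
    have h1 : b - a ≤ Real.exp (b - a) := by
      have := Real.add_one_le_exp (b - a)
      linarith
    have h2 : Real.exp (a - b) ≤ 1 / (b - a) := by
      have h3 : Real.exp (a - b) = 1 / Real.exp (b - a) := by
        rw [one_div, ← Real.exp_neg]
        congr 1
        ring
      rw [h3]
      exact one_div_le_one_div_of_le (by linarith) h1
    refine h2.trans ?_
    rw [div_le_div_iff₀ (by linarith) hb]
    nlinarith [mul_nonneg ha (by linarith : (0 : ℝ) ≤ b - a - 1)]

theorem core {N : ℕ} (hN : 0 < N) {e₀ L : ℝ} (he : 0 < e₀) (hL : 0 < L)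
    {p : Ω → ℝ} (hp : ∀ ω, 0 ≤ p ω) (h1 : ∑ ω, p ω = 1) (B : Ω → β)
    (D : ℕ → Ω → Fin d → ℤ) (hD0 : ∀ ω, 0 < p ω → ∀ c, -1 ≤ D 0 ω c ∧ D 0 ω c ≤ 1) :
    ∃ w : Ω → ℕ, (∀ ω, w ω ≤ N) ∧
      CH p (fun ω => D (w ω) ω) (fun ω => (B ω, w ω)) ≤
        e₀ * L + (2 * (d * Real.log 3) + Real.log (N + 1)) ∧
      ∀ bad : Ω × Ω → ℝ, (∀ x, 0 ≤ bad x) → (∀ x, bad x ≤ 1) →
        (∀ x, ¬ (w x.1 < N ∧ ∀ c, |D (w x.1 + 1) x.2 c - D (w x.1 + 1) x.1 c| ≤ 1) →
          bad x = 0) →
        Ex (dbl p (fun ω => (B ω, w ω, D (w ω) ω))) bad ≤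
          (d * Real.log 3 + Real.log (N + 1) + 1) / (e₀ * L / N) := by
  classical
  have hN0 : (0 : ℝ) < N := by exact_mod_cast hN
  set g : ℕ → Ω → ℝ := fun k ω => gg p B D (B ω) k (D k ω) with hg
  set f : ℕ → Ω → ℝ := fun k ω => e₀ * ((k : ℝ) / N) * L + Real.log (g k ω) with hf
  have hex : ∀ ω, ∃ k ∈ range (N + 1), ∀ k' ∈ range (N + 1), f k' ω ≤ f k ω := fun ω =>
    Finset.exists_max_image (range (N + 1)) (fun k => f k ω)
      ⟨0, Finset.mem_range.mpr (Nat.succ_pos _)⟩
  choose w hw1 hw2 using hex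
  have hwN : ∀ ω, w ω ≤ N := fun ω => Nat.lt_succ_iff.mp (Finset.mem_range.mp (hw1 ω))
  have hgpos : ∀ k ω, 0 < p ω → 0 < g k ω := by
    intro k ω hω
    refine lt_of_lt_of_le hω ?_
    refine (le_law hp (fun ω => ω) ω).trans (law_le_gg hp ?_)
    rintro ω' rfl
    exact ⟨rfl, fun c => by simp⟩
  have hPB : ∀ ω, 0 < p ω → 0 < law p B (B ω) := fun ω hω => law_pos hp B hω
  set X : Ω → (Fin d → ℤ) × ℕ := fun ω => (D (w ω) ω, w ω) with hX
  set K : ℝ := d * Real.log 3 + Real.log (N + 1) with hK
  have hN1 : (0 : ℝ) < N + 1 := by positivity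
  have hK0 : Real.log (3 ^ d * (N + 1 : ℝ)) = K := by
    rw [Real.log_mul (by positivity) (by positivity), Real.log_pow]
  -- cross entropy
  have hcross : CH p X B ≤ K + Ex p (fun ω => Real.log (law p B (B ω)) -
      Real.log (g (w ω) ω)) := by
    have h := CH_le_cross hp h1 X B
      (fun b x => if x.2 ≤ N then gg p B D b x.2 x.1 / (3 ^ d * (N + 1) * law p B b) else 0)
      (by
        intro ω hω
        simp only [hX, hwN ω, if_true]
        exact div_pos (hgpos _ _ hω) (mul_pos (by positivity) (hPB ω hω)))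
      (by
        intro b x
        split_ifs
        · exact div_nonneg (gg_nonneg hp _ _ _ _ _)
            (mul_nonneg (by positivity) (law_nonneg hp _ _))
        · exact le_rfl)
      (by
        intro ω hω F
        have hb := hPB ω hω
        set G := F.image Prod.fst with hG
        have hsub : ∀ x ∈ F, x.2 ≤ N → x ∈ G ×ˢ range (N + 1) := by
          intro x hx hx2
          exact Finset.mem_product.mpr ⟨Finset.mem_image_of_mem _ hx,
            Finset.mem_range.mpr (by omega)⟩
        calc ∑ x ∈ F, (if x.2 ≤ N then gg p B D (B ω) x.2 x.1 /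
                (3 ^ d * (N + 1) * law p B (B ω)) else 0)
            = ∑ x ∈ F.filter (fun x => x.2 ≤ N), gg p B D (B ω) x.2 x.1 /
                (3 ^ d * (N + 1) * law p B (B ω)) := by rw [Finset.sum_filter]
          _ ≤ ∑ x ∈ G ×ˢ range (N + 1), gg p B D (B ω) x.2 x.1 /
                (3 ^ d * (N + 1) * law p B (B ω)) := by
              apply Finset.sum_le_sum_of_subset_of_nonneg
              · intro x hx
                exact hsub x (Finset.mem_filter.mp hx).1 (Finset.mem_filter.mp hx).2
              · intro x _ _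
                exact div_nonneg (gg_nonneg hp _ _ _ _ _) (by positivity)
          _ = ∑ k ∈ range (N + 1), (∑ x ∈ G, gg p B D (B ω) k x) /
                (3 ^ d * (N + 1) * law p B (B ω)) := by
              rw [Finset.sum_product_right]
              exact Finset.sum_congr rfl fun k _ => by rw [Finset.sum_div]
          _ ≤ ∑ k ∈ range (N + 1), (3 ^ d * law p B (B ω)) /
                (3 ^ d * (N + 1) * law p B (B ω)) := by
              refine Finset.sum_le_sum fun k _ => ?_
              exact div_le_div_of_nonneg_right (sum_gg_le hp B D (B ω) k G) (by positivity)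
          _ = 1 := by
              rw [Finset.sum_const, Finset.card_range, nsmul_eq_mul]
              push_cast
              have h3 : (3 : ℝ) ^ d ≠ 0 := by positivity
              field_simp)
    refine h.trans (le_of_eq ?_)
    rw [← Ex_const h1 K, ← Ex_add]
    refine le_antisymm (Ex_mono hp ?_) (Ex_mono hp ?_) <;>
    · intro ω hω
      have a1 := hgpos (w ω) ω hω
      have a2 := hPB ω hω
      simp only [hX, hwN ω, if_true]
      have e1 : gg p B D (B ω) (w ω) (D (w ω) ω) = g (w ω) ω := rfl
      rw [e1, Real.log_div a1.ne' (by positivity), Real.log_mul (by positivity) a2.ne', hK0]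
      linarith
  -- level zero
  have hz : Ex p (fun ω => Real.log (law p B (B ω)) - Real.log (g 0 ω)) ≤
      d * Real.log 3 := by
    have h := CH_le_card hp h1 (D 0) B (fun _ => Fintype.piFinset fun _ => Finset.Icc (-1) 1)
      (fun ω hω => by
        rw [Fintype.mem_piFinset]
        intro c
        rw [Finset.mem_Icc]
        exact hD0 ω hω c)
    rw [Ex_const h1, Fintype.card_piFinset] at h
    have e1 : (Finset.Icc (-1 : ℤ) 1).card = 3 := by decide
    simp only [e1, Finset.prod_const, Finset.card_univ, Fintype.card_fin] at h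
    push_cast at h
    rw [Real.log_pow, CH_eq_neg_sum hp] at h
    refine le_trans (Ex_mono hp ?_) h
    intro ω hω
    have a1 := law_pos hp (fun ω => (D 0 ω, B ω)) hω
    have a2 := hPB ω hω
    rw [Real.log_div a1.ne' a2.ne']
    have h3 : law p (fun ω => (D 0 ω, B ω)) (D 0 ω, B ω) ≤ g 0 ω := by
      refine law_le_gg (Y := fun ω => (D 0 ω, B ω)) hp ?_
      intro ω' h
      simp only [Prod.mk.injEq] at h
      refine ⟨h.2, fun c => ?_⟩
      rw [h.1]
      simp
    have h4 := Real.log_le_log a1 h3
    linarith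
  have hiw : Ex p (fun ω => Real.log (law p B (B ω)) - Real.log (g (w ω) ω)) ≤
      e₀ * L + d * Real.log 3 := by
    have h2 : Ex p (fun ω => Real.log (law p B (B ω)) - Real.log (g (w ω) ω)) ≤
        Ex p (fun ω => e₀ * L + (Real.log (law p B (B ω)) - Real.log (g 0 ω))) := by
      refine Ex_mono hp fun ω _ => ?_
      have h3 := hw2 ω 0 (Finset.mem_range.mpr (Nat.succ_pos _))
      simp only [hf] at h3
      have h4 : ((w ω : ℝ) / N) ≤ 1 := by
        rw [div_le_one hN0]
        exact_mod_cast hwN ω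
      have h5 : e₀ * ((w ω : ℝ) / N) * L ≤ e₀ * L := by
        have := mul_le_mul_of_nonneg_left h4 (mul_pos he hL).le
        nlinarith
      push_cast at h3
      rw [zero_div, mul_zero, zero_mul, zero_add] at h3
      linarith
    rw [Ex_add, Ex_const h1] at h2
    linarith
  refine ⟨w, hwN, ?_, ?_⟩
  · have h2 := CH_chain hp (fun ω => D (w ω) ω) w B
    have h3 : CH p (fun ω => (D (w ω) ω, w ω)) B = CH p X B := rfl
    have h4 := CH_nonneg hp w B
    have h5 : CH p (fun ω => D (w ω) ω) (fun ω => (B ω, w ω)) ≤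
        CH p (fun ω => D (w ω) ω) (fun ω => (w ω, B ω)) := by
      apply CH_mono_cond hp
      intro ω ω' _ _ h
      simp only [Prod.mk.injEq] at h ⊢
      exact ⟨h.2, h.1⟩
    linarith
  · intro bad hb0 hb1 hbad
    set Y : Ω → β × ℕ × (Fin d → ℤ) := fun ω => (B ω, w ω, D (w ω) ω) with hY
    set b : ℝ := e₀ * L / N with hb
    have hbpos : 0 < b := by positivity
    have hPY : ∀ ω, 0 < p ω → 0 < law p Y (Y ω) := fun ω hω => law_pos hp Y hω
    have hlaw : ∀ ω, law p (fun ω => (X ω, B ω)) (X ω, B ω) = law p Y (Y ω) := by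
      intro ω
      unfold law
      refine Finset.sum_congr rfl fun ω' _ => ?_
      have : ((X ω', B ω') = (X ω, B ω)) ↔ (Y ω' = Y ω) := by
        simp only [hX, hY, Prod.mk.injEq]
        tauto
      by_cases h : Y ω' = Y ω
      · rw [if_pos h, if_pos (this.mpr h)]
      · rw [if_neg h, if_neg (fun hh => h (this.mp hh))]
    set a : Ω → ℝ := fun ω => Real.log (g (w ω) ω) - Real.log (law p Y (Y ω)) with ha
    have hle : ∀ ω, law p Y (Y ω) ≤ g (w ω) ω := by
      intro ω
      refine law_le_gg (Y := Y) hp ?_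
      intro ω' h
      simp only [hY, Prod.mk.injEq] at h
      obtain ⟨h2, h3, h4⟩ := h
      refine ⟨h2, fun c => ?_⟩
      rw [← h3, h4, ← h3]
      simp
    have ha0 : ∀ ω, 0 < p ω → 0 ≤ a ω := by
      intro ω hω
      have := Real.log_le_log (hPY ω hω) (hle ω)
      simp only [ha]
      linarith
    have hEa : Ex p a ≤ K := by
      have h2 : CH p X B = Ex p (fun ω => Real.log (law p B (B ω)) -
          Real.log (law p Y (Y ω))) := by
        rw [CH_eq_neg_sum hp]
        refine le_antisymm (Ex_mono hp ?_) (Ex_mono hp ?_) <;>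
        · intro ω hω
          rw [hlaw ω, Real.log_div (hPY ω hω).ne' (hPB ω hω).ne']
          linarith
      rw [h2, Ex_sub, Ex_sub] at hcross
      simp only [ha]
      rw [Ex_sub]
      linarith
    -- one point
    have hone : ∀ ω, ∑ ω', dbl p Y (ω, ω') * bad (ω, ω') ≤ p ω * ((a ω + 1) / b) := by
      intro ω
      rcases (hp ω).eq_or_lt with h0 | h0
      · rw [← h0, zero_mul]
        refine le_of_eq (Finset.sum_eq_zero fun ω' _ => ?_)
        unfold dbl glue
        rw [← h0]
        simp
      · set S := ∑ ω', dbl p Y (ω, ω') * bad (ω, ω') with hS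
        have hS1 : S ≤ p ω := by
          calc S ≤ ∑ ω', dbl p Y (ω, ω') := by
                refine Finset.sum_le_sum fun ω' _ => ?_
                have := dbl_nonneg (b := Y) hp (ω, ω')
                nlinarith [hb1 (ω, ω')]
            _ = p ω := glue_fst hp (fun _ => rfl) ω
        have hS2 : S ≤ p ω * Real.exp (a ω - b) := by
          by_cases hwn : w ω < N
          · have hY0 := hPY ω h0
            have h3 : S ≤ ∑ ω', p ω / law p Y (Y ω) *
                (if B ω' = B ω ∧ ∀ c, |D (w ω + 1) ω' c - D (w ω + 1) ω c| ≤ 1 then p ω'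
                  else 0) := by
              refine Finset.sum_le_sum fun ω' _ => ?_
              have hr : 0 ≤ p ω / law p Y (Y ω) * (if B ω' = B ω ∧
                  ∀ c, |D (w ω + 1) ω' c - D (w ω + 1) ω c| ≤ 1 then p ω' else 0) := by
                refine mul_nonneg (div_nonneg (hp ω) hY0.le) ?_
                split_ifs
                exacts [hp ω', le_rfl]
              by_cases hc : ∀ c, |D (w ω + 1) ω' c - D (w ω + 1) ω c| ≤ 1
              · by_cases hy : Y ω = Y ω'
                · have hB : B ω' = B ω := by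
                    simp only [hY, Prod.mk.injEq] at hy
                    exact hy.1.symm
                  rw [if_pos ⟨hB, hc⟩]
                  have e1 : dbl p Y (ω, ω') = p ω * p ω' / law p Y (Y ω) := by
                    unfold dbl glue
                    rw [if_pos hy]
                  have e2 : 0 ≤ p ω * p ω' / law p Y (Y ω) :=
                    div_nonneg (mul_nonneg (hp _) (hp _)) hY0.le
                  rw [e1]
                  calc p ω * p ω' / law p Y (Y ω) * bad (ω, ω') ≤
                      p ω * p ω' / law p Y (Y ω) * 1 :=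
                        mul_le_mul_of_nonneg_left (hb1 _) e2
                    _ = p ω / law p Y (Y ω) * p ω' := by ring
                · have e1 : dbl p Y (ω, ω') = 0 := by
                    unfold dbl glue
                    rw [if_neg hy]
                  rw [e1, zero_mul]
                  exact hr
              · rw [hbad (ω, ω') (fun h => hc h.2), mul_zero]
                exact hr
            rw [← Finset.mul_sum] at h3
            have h4 : ∑ ω', (if B ω' = B ω ∧ ∀ c, |D (w ω + 1) ω' c - D (w ω + 1) ω c| ≤ 1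
                then p ω' else 0) = g (w ω + 1) ω := by
              simp only [hg, gg]
            rw [h4] at h3
            have h5 := hw2 ω (w ω + 1) (Finset.mem_range.mpr (by omega))
            simp only [hf] at h5
            have hg1 := hgpos (w ω + 1) ω h0
            have hgw := hgpos (w ω) ω h0
            have h6 : Real.log (g (w ω + 1) ω) ≤ Real.log (g (w ω) ω) - b := by
              have e2 : e₀ * (((w ω + 1 : ℕ) : ℝ) / N) * L =
                  e₀ * ((w ω : ℝ) / N) * L + b := by
                rw [hb]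
                push_cast
                field_simp
              rw [e2] at h5
              linarith
            have h7 : g (w ω + 1) ω / law p Y (Y ω) ≤ Real.exp (a ω - b) := by
              rw [← Real.exp_log (div_pos hg1 hY0), Real.log_div hg1.ne' hY0.ne']
              apply Real.exp_le_exp.mpr
              simp only [ha]
              linarith
            calc S ≤ p ω / law p Y (Y ω) * g (w ω + 1) ω := h3
              _ = p ω * (g (w ω + 1) ω / law p Y (Y ω)) := by ring
              _ ≤ p ω * Real.exp (a ω - b) := mul_le_mul_of_nonneg_left h7 (hp ω)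
          · have h3 : S = 0 := by
              refine Finset.sum_eq_zero fun ω' _ => ?_
              rw [hbad (ω, ω') (fun h => hwn h.1), mul_zero]
            rw [h3]
            exact mul_nonneg (hp ω) (Real.exp_pos _).le
        have h3 := min_exp (ha0 ω h0) hbpos
        rcases min_le_iff.mp h3 with h4 | h4
        · calc S ≤ p ω := hS1
            _ = p ω * 1 := (mul_one _).symm
            _ ≤ _ := mul_le_mul_of_nonneg_left h4 (hp ω)
        · exact hS2.trans (mul_le_mul_of_nonneg_left h4 (hp ω))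
    calc Ex (dbl p Y) bad = ∑ ω, ∑ ω', dbl p Y (ω, ω') * bad (ω, ω') := by
          unfold Ex
          rw [Fintype.sum_prod_type]
      _ ≤ ∑ ω, p ω * ((a ω + 1) / b) := Finset.sum_le_sum fun ω _ => hone ω
      _ = (Ex p a + ∑ ω, p ω) / b := by
          unfold Ex
          rw [add_div, Finset.sum_div, Finset.sum_div, ← Finset.sum_add_distrib]
          refine Finset.sum_congr rfl fun ω _ => ?_
          ring
      _ = (Ex p a + 1) / b := by rw [h1]
      _ ≤ (K + 1) / b := by
          apply div_le_div_of_nonneg_right _ hbpos.le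
          linarith

lemma near_or {q a a' : ℤ} (hq : 0 < q) (h : 1 < |a' / q - a / q|) : q ≤ |a - a'| := by
  have e1 := Int.mul_ediv_add_emod a q
  have e2 := Int.mul_ediv_add_emod a' q
  have m1 := Int.emod_nonneg a hq.ne'
  have m2 := Int.emod_lt_of_pos a hq
  have m3 := Int.emod_nonneg a' hq.ne'
  have m4 := Int.emod_lt_of_pos a' hq
  rcases lt_abs.mp h with h2 | h2
  · have h3 : 2 * q ≤ q * (a' / q - a / q) := by nlinarith
    rw [le_abs]
    right
    nlinarith
  · have h3 : 2 * q ≤ q * (-(a' / q - a / q)) := by nlinarith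
    rw [le_abs]
    left
    nlinarith

lemma lvv_le {d J : ℕ} (x y : Fin d → ℤ) : lvv (2 ^ J) x y ≤ J * Real.log 2 := by
  unfold lvv
  have h1 : (1 : ℝ) ≤ max (dsv x y) 1 := le_max_right _ _
  have h2 : (0 : ℝ) < max (dsv x y) 1 := by linarith
  have h3 : (0 : ℝ) < ((2 ^ J : ℕ) : ℝ) := by positivity
  calc Real.log (((2 ^ J : ℕ) : ℝ) / max (dsv x y) 1) ≤ Real.log ((2 ^ J : ℕ) : ℝ) := by
        apply Real.log_le_log (div_pos h3 h2)
        exact div_le_self h3.le h1
    _ = J * Real.log 2 := by
        push_cast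
        rw [Real.log_pow]

lemma lvv_le' {d J j : ℕ} (hj : j ≤ J) (x y : Fin d → ℤ) (c : Fin d)
    (h : (2 : ℤ) ^ (J - j) ≤ |x c - y c|) : lvv (2 ^ J) x y ≤ j * Real.log 2 := by
  unfold lvv
  have h1 : (2 : ℝ) ^ (J - j) ≤ max (dsv x y) 1 := by
    refine le_trans ?_ (le_max_left _ _)
    have h4 : (2 : ℝ) ^ (J - j) ≤ |((x c - y c : ℤ) : ℝ)| := by
      rw [← Int.cast_abs]
      exact_mod_cast h
    refine h4.trans ?_
    have h5 := norm_le_pi_norm (fun k => ((x k - y k : ℤ) : ℝ)) c
    rw [Real.norm_eq_abs] at h5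
    exact h5
  have h0 : (0 : ℝ) < 2 ^ (J - j) := by positivity
  have h2 : (0 : ℝ) < max (dsv x y) 1 := by linarith
  have h3 : (0 : ℝ) < ((2 ^ J : ℕ) : ℝ) := by positivity
  calc Real.log (((2 ^ J : ℕ) : ℝ) / max (dsv x y) 1) ≤
        Real.log (((2 ^ J : ℕ) : ℝ) / 2 ^ (J - j)) := by
        apply Real.log_le_log (div_pos h3 h2)
        exact div_le_div_of_nonneg_left h3.le h0 h1
    _ = Real.log ((2 : ℝ) ^ j) := by
        congr 1
        rw [div_eq_iff h0.ne', ← pow_add]
        push_cast
        congr 1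
        omega
    _ = j * Real.log 2 := by rw [Real.log_pow]

end HC44

open HC44

theorem hc : HCStmt := by
  classical
  intro d N hN ε hε
  have hN0 : (0 : ℝ) < N := by exact_mod_cast hN
  set e₀ : ℝ := min ε 1 / 4 with he₀
  have he : 0 < e₀ := by
    rw [he₀]
    have : 0 < min ε 1 := lt_min hε one_pos
    positivity
  have he4 : e₀ ≤ ε / 4 := by
    rw [he₀]
    have := min_le_left ε 1
    linarith
  have hl2 : 0 < Real.log 2 := Real.log_pos (by norm_num)
  have hl2' : Real.log 2 ≤ 1 := by
    have := Real.log_two_lt_d9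
    linarith
  have hl3 : 0 ≤ Real.log 3 := Real.log_nonneg (by norm_num)
  have hlN : 0 ≤ Real.log (N + 1) := Real.log_nonneg (by linarith)
  set K' : ℝ := 2 * (d * Real.log 3) + Real.log (N + 1) with hK'
  have hK'0 : 0 ≤ K' := by positivity
  set K : ℝ := d * Real.log 3 + Real.log (N + 1) with hK
  have hK0 : 0 ≤ K := by positivity
  obtain ⟨J₀, hJ₀⟩ := exists_nat_gt (1 + 2 * K' / ε + N * (K + 1) / (e₀ * ε))
  refine ⟨J₀, ?_⟩
  intro J hJ Ω _ β p B v hp h1 hv
  have hJR : 1 + 2 * K' / ε + N * (K + 1) / (e₀ * ε) ≤ J := by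
    have : (J₀ : ℝ) ≤ J := by exact_mod_cast hJ
    linarith
  have t1 : 0 ≤ 2 * K' / ε := by positivity
  have t2 : 0 ≤ N * (K + 1) / (e₀ * ε) := by positivity
  have hJ1 : (1 : ℝ) ≤ J := by linarith
  have hJ2 : 2 * K' ≤ ε * J := by
    have : 2 * K' / ε ≤ J := by linarith
    rw [div_le_iff₀ hε] at this
    linarith
  have hJ3 : N * (K + 1) / e₀ ≤ ε * J := by
    have h2 : N * (K + 1) / (e₀ * ε) ≤ J := by linarith
    rw [div_le_iff₀ (by positivity)] at h2
    rw [div_le_iff₀ he]
    linarith
  set L : ℝ := J * Real.log 2 with hL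
  have hLpos : 0 < L := by positivity
  have hLJ : L ≤ J := by
    rw [hL]
    nlinarith
  set D : ℕ → Ω → Fin d → ℤ := fun k ω => cap J (lev J N k) (v ω) with hD
  have hD0 : ∀ ω, 0 < p ω → ∀ c, -1 ≤ D 0 ω c ∧ D 0 ω c ≤ 1 := by
    intro ω hω c
    have h2 := abs_le.mp (hv ω hω c)
    have hP : (0 : ℤ) < 2 ^ J := by positivity
    simp only [hD, cap, lev, zero_mul, Nat.zero_div, Nat.sub_zero]
    constructor
    · apply Int.le_ediv_of_mul_le hP
      linarith [h2.1]
    · have h3 := Int.ediv_le_ediv hP h2.2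
      rwa [Int.ediv_self hP.ne'] at h3
  obtain ⟨w, hwN, hA, hB⟩ := core hN he hLpos hp h1 B D hD0
  refine ⟨w, hwN, ?_, ?_⟩
  · refine le_trans hA ?_
    have h2 : e₀ * L ≤ ε / 4 * J := by
      calc e₀ * L ≤ ε / 4 * L := mul_le_mul_of_nonneg_right he4 hLpos.le
        _ ≤ ε / 4 * J := mul_le_mul_of_nonneg_left hLJ (by positivity)
    have h3 : 0 < ε * J := by positivity
    linarith
  · set bad : Ω × Ω → ℝ := fun x =>
      if w x.1 < N ∧ ∀ c, |D (w x.1 + 1) x.2 c - D (w x.1 + 1) x.1 c| ≤ 1 then 1 else 0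
      with hbad
    have hb := hB bad (fun x => by simp only [hbad]; split_ifs <;> norm_num)
      (fun x => by simp only [hbad]; split_ifs <;> norm_num)
      (fun x hx => by simp only [hbad]; rw [if_neg hx])
    set Y : Ω → β × ℕ × (Fin d → ℤ) := fun ω => (B ω, w ω, D (w ω) ω) with hY
    have hpt : ∀ x : Ω × Ω, lvv (2 ^ J) (v x.1) (v x.2) ≤
        ((w x.1 : ℝ) + 1) / N * L + L * bad x := by
      intro x
      have h5 := lvv_le (J := J) (v x.1) (v x.2)
      have hw0 : (0 : ℝ) ≤ ((w x.1 : ℝ) + 1) / N * L := by positivity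
      by_cases hwn : w x.1 < N
      · by_cases hc : ∀ c, |D (w x.1 + 1) x.2 c - D (w x.1 + 1) x.1 c| ≤ 1
        · have e1 : bad x = 1 := by
            simp only [hbad]
            rw [if_pos ⟨hwn, hc⟩]
          rw [e1]
          linarith
        · have e1 : bad x = 0 := by
            simp only [hbad]
            rw [if_neg (fun h => hc h.2)]
          push Not at hc
          obtain ⟨c, hc⟩ := hc
          rw [e1, mul_zero, add_zero]
          set j := lev J N (w x.1 + 1) with hj
          have hjJ : j ≤ J := by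
            rw [hj]
            unfold lev
            calc (w x.1 + 1) * J / N ≤ N * J / N :=
                  Nat.div_le_div_right (Nat.mul_le_mul_right _ (by omega))
              _ = J := Nat.mul_div_cancel_left _ hN
          have h6 := near_or (q := 2 ^ (J - j)) (by positivity) hc
          have h7 := lvv_le' hjJ (v x.1) (v x.2) c h6
          have h8 : (j : ℝ) ≤ ((w x.1 : ℝ) + 1) / N * J := by
            have h9 : (j : ℝ) ≤ (((w x.1 + 1) * J : ℕ) : ℝ) / N := Nat.cast_div_le
            refine h9.trans (le_of_eq ?_)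
            push_cast
            ring
          calc lvv (2 ^ J) (v x.1) (v x.2) ≤ j * Real.log 2 := h7
            _ ≤ (((w x.1 : ℝ) + 1) / N * J) * Real.log 2 :=
                mul_le_mul_of_nonneg_right h8 hl2.le
            _ = _ := by rw [hL]; ring
      · have e1 : bad x = 0 := by
          simp only [hbad]
          rw [if_neg (fun h => hwn h.1)]
        have e2 : w x.1 = N := le_antisymm (hwN _) (not_lt.mp hwn)
        rw [e1, mul_zero, add_zero, e2]
        have h9 : (1 : ℝ) ≤ ((N : ℝ) + 1) / N := by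
          rw [le_div_iff₀ hN0]
          linarith
        nlinarith
    have h3 : Ex (dbl p Y) (fun x => lvv (2 ^ J) (v x.1) (v x.2)) ≤
        Ex (dbl p Y) (fun x => ((w x.1 : ℝ) + 1) / N * L + L * bad x) :=
      Ex_mono (dbl_nonneg hp) fun x _ => hpt x
    have h4 : Ex (dbl p Y) (fun x => ((w x.1 : ℝ) + 1) / N * L + L * bad x) =
        Ex p (fun ω => ((w ω : ℝ) + 1) / N * L) + L * Ex (dbl p Y) bad := by
      rw [Ex_add, Ex_smul]
      congr 1
      exact (dbl_fst (b := Y) hp).ex (fun ω => ((w ω : ℝ) + 1) / N * L)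
    have h5 : Ex p (fun ω => ((w ω : ℝ) + 1) / N * L) =
        Ex p (fun ω => (w ω : ℝ)) / N * L + L / N := by
      have e1 : (fun ω => ((w ω : ℝ) + 1) / N * L) = fun ω => (L / N) * (w ω : ℝ) + L / N := by
        funext ω
        ring
      rw [e1, Ex_add, Ex_smul, Ex_const h1]
      ring
    have h6 : L * Ex (dbl p Y) bad ≤ ε * J := by
      calc L * Ex (dbl p Y) bad ≤ L * ((K + 1) / (e₀ * L / N)) :=
            mul_le_mul_of_nonneg_left hb hLpos.le
        _ = N * (K + 1) / e₀ := by
            field_simp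
        _ ≤ ε * J := hJ3
    have h7 : L / N ≤ 1 / N * J := by
      rw [one_div_mul_eq_div]
      exact div_le_div_of_nonneg_right hLJ hN0.le
    refine h3.trans ?_
    rw [h4, h5]
    linarith

end Pool.Agent.H24.KTH
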