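import Pool.Agent.H44.KTH.FIN
import Pool.Agent.H44.KTH.HC
import Pool.Agent.H84.KTH.TMS
import Pool.Agent.H45.KTH.KPS
import Pool.Agent.H99.KTH.CGP
import Pool.Agent.H70.KTH.UPT
import Pool.Agent.H91.KTH.UFD
import Pool.Agent.H36.KTH.UFT
import Pool.Agent.H71.KTH.PAR
import Pool.Agent.H36.KTH.PAL
import Pool.Agent.H23.KTH.DIR
import Pool.Agent.H23.KTH.DRV
import Pool.Agent.H23.KTH.T1L
import Pool.Agent.H23.KTH.SPL
import Pool.Agent.H25.KTH.ARB
import Pool.Agent.H25.KTH.CEN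
import Pool.Agent.H78.KTH.SCL
import Pool.Agent.H45.KTH.FCK
import Pool.Agent.H64.KTH.TLN
import Pool.Agent.H88.KTH.CHD
import Pool.Agent.H86.KTH.ETA
import Pool.Agent.H48.KTH.ALS
import Pool.Agent.H48.KTH.ACO
import Pool.Agent.H48.KTH.ONC
import Pool.Agent.H50.KTH.AIL
import Pool.Agent.H50.KTH.AIS
import Pool.Agent.H50.KTH.SUM
import Pool.Agent.H50.KTH.LVB
import Pool.Agent.H34.KTH.AXI
import Pool.Agent.H40.KTH.AYY
import Pool.Agent.H40.KTH.SEC
import Pool.Agent.H86.KTH.LVA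
import Pool.Agent.H86.KTH.SPI
import Pool.Agent.H78.KTH.INF
import Pool.Agent.H78.KTH.PT7
import Pool.Agent.H78.KTH.TRV
import Pool.Agent.H78.KTH.LVO
import Pool.Agent.H71.KTH.TWO
import Pool.Agent.H80.KTH.CFG
import Pool.Agent.H38.KTH.PUR
import Pool.Agent.H91.KTH.RED
import Pool.Agent.H51.KTH.LPL
import Pool.Agent.H51.KTH.EFR
import Pool.Agent.H97.KTH.NUM
import Pool.Agent.H73.KTH.Dim
import Pool.Agent.H34.KTH.GAP
import Pool.Agent.H51.KTH.SEP
import Pool.Agent.H45.KTH.FCO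
import Pool.Agent.H24.KTH.CAP
import Pool.Agent.H24.KTH.UFC

/-!
# KTH: assembly of all rows
-/

set_option autoImplicit false

namespace Pool.KTH

open Pool.Agent.H24.KTH (CAPStmt)

/-- The theorem from the row UFC. -/
theorem fin_of (ufc : TMSStmt → KPSStmt → UPTStmt → CGPStmt → UFCStmt) : FINStmt := by
  have hCAP : CAPStmt := Pool.Agent.H24.KTH.cap_thm
  have hGAP : GAPStmt := gap
  have hSEP : SEPStmt := sep
  have hTMS : TMSStmt := tms hGAP
  have hKPS : KPSStmt := kps hTMS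
  have hCGP : CGPStmt := cgp hTMS hKPS
  have hUPT : UPTStmt := upt hCGP
  have hUFC : UFCStmt := ufc hTMS hKPS hUPT hCGP
  have hUFD : UFDStmt := Pool.Agent.H91.KTH.ufd_thm hUFC hTMS hKPS hUPT
  have hUFT : UFTStmt := Pool.Agent.H36.KTH.UFT.uft_of hTMS
  have hPAR : PARStmt := par cen hUPT hCGP
  have hPAL : PALStmt := Pool.Agent.H36.KTH.PAL.pal cen hCGP hUFC hUFD
  have hDIR : DIRStmt := dir hCGP
  have hDRV : DRVStmt := drv hUFC hUFD
  have hT1L : T1LStmt := t1l hUFT hPAR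
  have hFCK : FCKStmt := fck scl hGAP
  have hFCO : FCOStmt := fco scl hUFC hUPT hCGP
  have hTLN : TLNStmt := tln hSEP hFCK
  have hALL : ALLStmt := all hTLN hPAL
  have hCHD : CHDStmt := chd hTMS hKPS hCGP
  have hETA : ETAStmt := eta Pool.Agent.H24.KTH.pt7 Pool.Agent.H24.KTH.vec hCGP
  have hALS : ALSStmt := als hDRV hCHD hUPT hFCK hT1L hUFC
  have hAIL : AILStmt := ail hTLN hPAL
  have hAIS : AISStmt := ais hDRV hCHD hUPT
  have hAXI : AXIStmt := axi hUFD hSEP hTMS hPAL hPAR hFCO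
  have hAYY : AYYStmt := ayy hDIR hUFD
  have hACO : ACOStmt := aco hDIR hTLN hFCK hUFC
  have hSUM : SUMStmt := sum hALL hALS hAIL hAIS hAXI hAYY hETA trv
  have hLVA : LVAStmt := lva cfg hSUM hDRV pur trv
  have hSPL : SPLStmt := spl Pool.Agent.H24.KTH.two Pool.Agent.H24.KTH.onc hCGP
  have hSPI : SPIStmt := spi Pool.Agent.H24.KTH.inf
  have hLVB : LVBStmt := lvb cfg hDRV hSPL hSPI arb hALL hALS hAIL hAIS hAXI hAYY hACO hETA trv
  have hRED := Pool.Agent.H91.KTH.red Pool.Agent.H24.KTH.hc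
  have hLPL := Pool.Agent.H51.KTH.lpl hRED hCAP
  have hLVO : LVOStmt := lvo hRED hCAP (ksp hCAP) hLVB num
  have hEFR := Pool.Agent.H51.KTH.efr Pool.Agent.H24.KTH.sec
  exact fin hLVA hLPL hLVO hEFR Pool.Agent.H24.KTH.dim_thm

/-- The theorem. -/
theorem fin_thm : FINStmt := fin_of fun h1 h2 h3 _ => Pool.KTH.ufc h1 h2 h3

end Pool.KTH
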