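import Pool.Agent.H12.KTH.Stmts

/-!
# KTH, row FIN: the theorem from LVA, LPL, LVO, EFR, DIM
-/

set_option autoImplicit false

namespace Pool.KTH

open Pool.Agent.H24.KTH (LPLStmt EFRStmt DIMStmt)

theorem fin (hLVA : LVAStmt) (hLPL : LPLStmt) (hLVO : LVOStmt) (hEFR : EFRStmt)
    (hDIM : DIMStmt) : FINStmt := by
  intro n hn K hK
  refine hDIM (fun m hm => ?_) n hn K hK
  have h1 : (1.6 : ℝ) ≤ aa := by unfold aa; norm_num
  have h2 : aa ≤ (1.7 : ℝ) := by unfold aa; norm_num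
  exact hEFR m _ (hLVO m hm (hLPL m aa h1 h2 (hLVA m (by omega))))

end Pool.KTH
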